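import Pool.Agent.H27.MkC

/-! Every coefficient of every mirror deformed Markov number is positive. -/

namespace Pool.Agent.Results.MP_99184a_co.Full
open Polynomial Pool.Agent.H27.Mk

theorem result : (∀ v, ∃ a b c, Vert v a b c) ∧
    ∀ (v : Bool ⊕ List Bool) (a b c : ℤ[X]), Vert v a b c →
      ∀ m : ℤ[X], m = a ∨ m = b ∨ m = c → ∀ j ≤ m.natDegree, 0 < m.coeff j := by
  refine ⟨Vert.ex, fun v a b c h m hm => ?_⟩
  obtain ⟨-, h1, h2, -⟩ := Tree.root.pos
  cases h with
  | top => rcases hm with rfl | rfl | rfl <;> exact h1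
  | second =>
    rcases hm with rfl | rfl | rfl
    exacts [h1, h1, h2]
  | node h =>
    obtain ⟨-, h1, h2, h3, -⟩ := h.pos
    rcases hm with rfl | rfl | rfl
    exacts [h1, h2, h3]

end Pool.Agent.Results.MP_99184a_co.Full
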